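import Mathlib
import Pool.Agent.Q96.FblCore
import Pool.Agent.Q96.LpFin

/-!
# MP_43bafb_an, Q1 (answer: yes)

For every Banach space `E`, every `p ∈ [1, ∞)` and every `x' ∈ E*`, the functional `x'` attains its
norm on `E` if and only if its extension to a lattice homomorphism attains its norm on the free
`p`-convex Banach lattice over `E`.
-/

set_option autoImplicit false
set_option linter.unusedSectionVars false

open Filter Topology
open scoped BoundedContinuousFunction ENNReal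

universe u

namespace Pool.Agent.Results.MP_43bafb_an.NormAttaining

/-- the closed unit ball of `ℓ_q^n`, `1/p + 1/q = 1`, as the dual ball of `ℓ_p^n` -/
def dualBall (p : ℝ) (n : ℕ) : Set (Fin n → ℝ) :=
  {a | ∀ b : Fin n → ℝ, ∑ i, |b i| ^ p ≤ 1 → ∑ i, a i * b i ≤ 1}

/-- `s = (∑ |x_i|^p)^(1/p)` in the vector lattice `X`: the least upper bound of the elements
`∑ a_i x_i`, where `a` runs through the closed unit ball of `ℓ_q^n` -/
def IsPSum (p : ℝ) {X : Type u} [NormedAddCommGroup X] [Lattice X] [NormedSpace ℝ X] {n : ℕ}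
    (x : Fin n → X) (s : X) : Prop :=
  IsLUB {y | ∃ a ∈ dualBall p n, y = ∑ i, a i • x i} s

/-- the normed lattice `X` is a Banach lattice which is `p`-convex with constant `1` -/
structure IsPConvex (p : ℝ) (X : Type u) [NormedAddCommGroup X] [Lattice X] [HasSolidNorm X]
    [IsOrderedAddMonoid X] [NormedSpace ℝ X] : Prop where
  complete : CompleteSpace X
  smul_nonneg : ∀ (a : ℝ) (x : X), 0 ≤ a → 0 ≤ x → 0 ≤ a • x
  convex : ∀ (n : ℕ) (x : Fin n → X) (s : X), IsPSum p x s →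
    ‖s‖ ≤ (∑ i, ‖x i‖ ^ p) ^ (1 / p)

/-- lattice homomorphisms -/
def IsLatHom {X Y : Type*} [NormedAddCommGroup X] [Lattice X] [NormedSpace ℝ X]
    [NormedAddCommGroup Y] [Lattice Y] [NormedSpace ℝ Y] (T : X →L[ℝ] Y) : Prop :=
  ∀ x y, T (x ⊔ y) = T x ⊔ T y ∧ T (x ⊓ y) = T x ⊓ T y

/-- `(F, δ)` is the free `p`-convex Banach lattice over `E` -/
structure IsFree (p : ℝ) (E F : Type u) [NormedAddCommGroup E] [NormedSpace ℝ E]
    [NormedAddCommGroup F] [Lattice F] [HasSolidNorm F] [IsOrderedAddMonoid F] [NormedSpace ℝ F]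
    (δ : E →L[ℝ] F) : Prop where
  pconvex : IsPConvex p F
  isometry : ∀ x, ‖δ x‖ = ‖x‖
  lift : ∀ (X : Type u) [NormedAddCommGroup X] [Lattice X] [HasSolidNorm X]
    [IsOrderedAddMonoid X] [NormedSpace ℝ X], IsPConvex p X → ∀ T : E →L[ℝ] X,
      ∃ S : F →L[ℝ] X, IsLatHom S ∧ (∀ x, S (δ x) = T x) ∧ ‖S‖ = ‖T‖ ∧
        ∀ S' : F →L[ℝ] X, IsLatHom S' → (∀ x, S' (δ x) = T x) → S' = S

/-- the functional `f` attains its norm -/
def Attains {X : Type*} [NormedAddCommGroup X] [NormedSpace ℝ X] (f : X →L[ℝ] ℝ) : Prop :=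
  ∃ x, ‖x‖ ≤ 1 ∧ f x = ‖f‖

section Aux

variable {p : ℝ}

lemma dual_le (hp : 1 ≤ p) {n : ℕ} {a : Fin n → ℝ} (ha : a ∈ dualBall p n) (v : Fin n → ℝ) :
    ∑ i, a i * v i ≤ (∑ i, |v i| ^ p) ^ (1 / p) := by
  have hp0 : 0 < p := by linarith
  set G := ∑ i, |v i| ^ p with hG
  have hG0 : 0 ≤ G := Finset.sum_nonneg fun i _ => Real.rpow_nonneg (abs_nonneg _) _
  rcases hG0.lt_or_eq with hpos | hzero
  · have hR : 0 < G ^ (1 / p) := Real.rpow_pos_of_pos hpos _
    have h1 := ha (fun i => v i / G ^ (1 / p)) (by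
      have h2 : ∀ i, |v i / G ^ (1 / p)| ^ p = |v i| ^ p / G := by
        intro i
        rw [abs_div, abs_of_pos hR, Real.div_rpow (abs_nonneg _) hR.le, ← Real.rpow_mul hG0,
          one_div_mul_cancel hp0.ne', Real.rpow_one]
      simp only [h2]
      rw [← Finset.sum_div, ← hG, div_self hpos.ne'])
    have h2 : ∑ i, a i * (v i / G ^ (1 / p)) = (∑ i, a i * v i) / G ^ (1 / p) := by
      rw [Finset.sum_div]
      exact Finset.sum_congr rfl fun i _ => (mul_div_assoc _ _ _).symm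
    rw [h2, div_le_one hR] at h1
    exact h1
  · rw [← hzero, Real.zero_rpow (by positivity)]
    have h1 : ∀ i, v i = 0 := by
      intro i
      have h2 := (Finset.sum_eq_zero_iff_of_nonneg
        (fun i _ => Real.rpow_nonneg (abs_nonneg (v i)) p)).1 hzero.symm i (Finset.mem_univ i)
      rw [Real.rpow_eq_zero (abs_nonneg _) hp0.ne', abs_eq_zero] at h2
      exact h2
    simp [h1]

lemma zero_mem_dualBall (p : ℝ) (n : ℕ) : (0 : Fin n → ℝ) ∈ dualBall p n := by
  intro b _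
  simp

/-- a criterion for `p`-convexity -/
lemma convex_of_upper {X : Type u} [NormedAddCommGroup X] [Lattice X] [HasSolidNorm X]
    [IsOrderedAddMonoid X] [NormedSpace ℝ X] {n : ℕ} (x : Fin n → X) (s g : X) {c : ℝ}
    (hs : IsPSum p x s) (hg : ∀ a ∈ dualBall p n, ∑ i, a i • x i ≤ g) (hgc : ‖g‖ ≤ c) :
    ‖s‖ ≤ c := by
  have h0 : 0 ≤ s := hs.1 ⟨0, zero_mem_dualBall p n, by simp⟩
  have h1 : s ≤ g := hs.2 (by
    rintro y ⟨a, ha, rfl⟩
    exact hg a ha)
  refine le_trans ?_ hgc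
  apply HasSolidNorm.solid
  rw [abs_of_nonneg h0, abs_of_nonneg (h0.trans h1)]
  exact h1

/-- spaces of bounded continuous functions are `p`-convex -/
lemma bcf_pconvex (hp : 1 ≤ p) (K : Type u) [TopologicalSpace K] : IsPConvex p (K →ᵇ ℝ) where
  complete := inferInstance
  smul_nonneg := by
    intro a x ha hx t
    exact mul_nonneg ha (hx t)
  convex := by
    intro n x s hs
    have hp0 : 0 < p := by linarith
    have hc : 0 ≤ (∑ i, ‖x i‖ ^ p) ^ (1 / p) :=
      Real.rpow_nonneg (Finset.sum_nonneg fun i _ => Real.rpow_nonneg (norm_nonneg _) _) _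
    refine convex_of_upper x s (BoundedContinuousFunction.const K ((∑ i, ‖x i‖ ^ p) ^ (1 / p)))
      hs ?_ ?_
    · intro a ha t
      change (∑ i, a i • x i : K →ᵇ ℝ) t ≤
        (BoundedContinuousFunction.const K ((∑ i, ‖x i‖ ^ p) ^ (1 / p))) t
      have h1 : (∑ i, a i • x i : K →ᵇ ℝ) t = ∑ i, a i * x i t := by
        rw [BoundedContinuousFunction.sum_apply]
        rfl
      rw [h1]
      refine (dual_le hp ha fun i => x i t).trans ?_
      rw [BoundedContinuousFunction.const_apply]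
      apply Real.rpow_le_rpow
      · exact Finset.sum_nonneg fun i _ => Real.rpow_nonneg (abs_nonneg _) _
      · apply Finset.sum_le_sum
        intro i _
        exact Real.rpow_le_rpow (abs_nonneg _) ((x i).norm_coe_le_norm t) hp0.le
      · positivity
    · refine (BoundedContinuousFunction.norm_const_le _).trans ?_
      rw [Real.norm_eq_abs, abs_of_nonneg hc]

open Q96.LpFin in
/-- finite dimensional `ℓ_p` spaces are `p`-convex -/
lemma lp_pconvex (hp : 1 ≤ p) [Fact (1 ≤ ENNReal.ofReal p)] (ι : Type u) [Fintype ι]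
    [MeasurableSpace ι] [DiscreteMeasurableSpace ι] : IsPConvex p (LI ι p) where
  complete := inferInstance
  smul_nonneg := by
    intro a x ha hx
    rw [le_iff] at hx ⊢
    intro i
    rw [Q96.LpFin.smul_apply, Q96.LpFin.zero_apply]
    have := hx i
    rw [Q96.LpFin.zero_apply] at this
    exact mul_nonneg ha this
  convex := by
    intro n x s hs
    have hp0 : 0 < p := by linarith
    refine convex_of_upper x s (mk p fun i => (∑ k, |x k i| ^ p) ^ (1 / p)) hs ?_ ?_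
    · intro a ha
      rw [le_iff]
      intro i
      rw [Q96.LpFin.sum_apply, mk_apply]
      simp only [Q96.LpFin.smul_apply]
      exact dual_le hp ha fun k => x k i
    · have h1 : ‖(mk p fun i => (∑ k, |x k i| ^ p) ^ (1 / p) : LI ι p)‖ ^ p =
          ∑ k, ‖x k‖ ^ p := by
        rw [norm_rpow hp]
        simp only [mk_apply, norm_rpow hp]
        rw [Finset.sum_comm]
        apply Finset.sum_congr rfl
        intro i _
        have h2 : 0 ≤ ∑ k, |x k i| ^ p :=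
          Finset.sum_nonneg fun k _ => Real.rpow_nonneg (abs_nonneg _) _
        rw [abs_of_nonneg (Real.rpow_nonneg h2 _), ← Real.rpow_mul h2,
          one_div_mul_cancel hp0.ne', Real.rpow_one]
      rw [← h1, ← Real.rpow_mul (norm_nonneg _), mul_one_div_cancel hp0.ne', Real.rpow_one]

end Aux

section Main

variable {E F : Type u} [NormedAddCommGroup E] [NormedSpace ℝ E]
  [NormedAddCommGroup F] [Lattice F] [HasSolidNorm F] [IsOrderedAddMonoid F] [NormedSpace ℝ F]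
  {δ : E →L[ℝ] F} {p : ℝ}

/-- constants as bounded continuous functions on a one point space -/
noncomputable def c1 : ℝ →L[ℝ] (PUnit.{u + 1} →ᵇ ℝ) :=
  LinearMap.mkContinuous
    { toFun := fun c => BoundedContinuousFunction.const PUnit.{u + 1} c
      map_add' := fun a b => by ext; rfl
      map_smul' := fun a b => by ext; rfl } 1 fun c => by
    rw [one_mul]
    exact BoundedContinuousFunction.norm_const_le _

lemma c1_apply (c : ℝ) (t : PUnit.{u + 1}) : (c1 c : PUnit.{u + 1} →ᵇ ℝ) t = c := rfl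

lemma norm_c1_le : ‖(c1 : ℝ →L[ℝ] (PUnit.{u + 1} →ᵇ ℝ))‖ ≤ 1 :=
  LinearMap.mkContinuous_norm_le _ zero_le_one _

lemma le_norm_c1 (c : ℝ) : |c| ≤ ‖(c1 c : PUnit.{u + 1} →ᵇ ℝ)‖ :=
  (c1 c : PUnit.{u + 1} →ᵇ ℝ).norm_coe_le_norm PUnit.unit

lemma c1_comp_hom {φ : F →L[ℝ] ℝ} (hφ : IsLatHom φ) :
    IsLatHom ((c1 : ℝ →L[ℝ] (PUnit.{u + 1} →ᵇ ℝ)).comp φ) := by
  intro x y
  constructor
  · ext t
    change φ (x ⊔ y) = φ x ⊔ φ y
    exact (hφ x y).1
  · ext t
    change φ (x ⊓ y) = φ x ⊓ φ y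
    exact (hφ x y).2

lemma eval_comp_hom {K : Type u} [TopologicalSpace K] {S : F →L[ℝ] (K →ᵇ ℝ)} (hS : IsLatHom S)
    (t : K) : IsLatHom ((BoundedContinuousFunction.evalCLM ℝ t).comp S) := by
  intro x y
  constructor
  · change S (x ⊔ y) t = S x t ⊔ S y t
    rw [(hS x y).1]
    rfl
  · change S (x ⊓ y) t = S x t ⊓ S y t
    rw [(hS x y).2]
    rfl

lemma exists_real (hp : 1 ≤ p) (h : IsFree p E F δ) (y : E →L[ℝ] ℝ) :
    ∃ φ : F →L[ℝ] ℝ, IsLatHom φ ∧ ∀ x, φ (δ x) = y x := by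
  obtain ⟨S, hS, hSδ, -, -⟩ := h.lift (PUnit.{u + 1} →ᵇ ℝ) (bcf_pconvex hp _) (c1.comp y)
  refine ⟨(BoundedContinuousFunction.evalCLM ℝ PUnit.unit).comp S, eval_comp_hom hS _, fun x => ?_⟩
  change S (δ x) PUnit.unit = y x
  rw [hSδ]
  rfl

lemma unique_real (hp : 1 ≤ p) (h : IsFree p E F δ) {φ φ' : F →L[ℝ] ℝ} (hφ : IsLatHom φ)
    (hφ' : IsLatHom φ') (he : ∀ x, φ (δ x) = φ' (δ x)) : φ = φ' := by
  obtain ⟨S, hS, hSδ, -, hu⟩ := h.lift (PUnit.{u + 1} →ᵇ ℝ) (bcf_pconvex hp _)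
    (c1.comp (φ.comp δ))
  have h1 := hu (c1.comp φ) (c1_comp_hom hφ) fun x => rfl
  have h2 := hu (c1.comp φ') (c1_comp_hom hφ') fun x => by
    change c1 (φ' (δ x)) = c1 (φ (δ x))
    rw [he]
  ext f
  have h3 : c1.comp φ = (c1 : ℝ →L[ℝ] (PUnit.{u + 1} →ᵇ ℝ)).comp φ' := h1.trans h2.symm
  have h4 : ((c1 : ℝ →L[ℝ] (PUnit.{u + 1} →ᵇ ℝ)).comp φ) f PUnit.unit =
      ((c1 : ℝ →L[ℝ] (PUnit.{u + 1} →ᵇ ℝ)).comp φ') f PUnit.unit := by
    rw [h3]
  exact h4

lemma norm_real (hp : 1 ≤ p) (h : IsFree p E F δ) {φ : F →L[ℝ] ℝ} (hφ : IsLatHom φ)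
    (y : E →L[ℝ] ℝ) (he : ∀ x, φ (δ x) = y x) : ‖φ‖ = ‖y‖ := by
  obtain ⟨S, hS, hSδ, hn, hu⟩ := h.lift (PUnit.{u + 1} →ᵇ ℝ) (bcf_pconvex hp _) (c1.comp y)
  have h1 := hu (c1.comp φ) (c1_comp_hom hφ) fun x => by
    change c1 (φ (δ x)) = c1 (y x)
    rw [he]
  apply le_antisymm
  · apply ContinuousLinearMap.opNorm_le_bound _ (norm_nonneg _)
    intro f
    have h2 : ‖φ f‖ ≤ ‖S f‖ := by
      rw [← h1]
      exact le_norm_c1 (φ f)
    have h3 : ‖S‖ ≤ ‖y‖ := by
      rw [hn]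
      refine (ContinuousLinearMap.opNorm_comp_le _ _).trans ?_
      exact mul_le_of_le_one_left (norm_nonneg _) norm_c1_le
    exact h2.trans ((S.le_opNorm f).trans (mul_le_mul_of_nonneg_right h3 (norm_nonneg _)))
  · apply ContinuousLinearMap.opNorm_le_bound _ (norm_nonneg _)
    intro x
    rw [← he, ← h.isometry x]
    exact φ.le_opNorm _

/-- the lattice homomorphism extending `y` -/
noncomputable def hat (hp : 1 ≤ p) (h : IsFree p E F δ) (y : E →L[ℝ] ℝ) : F →L[ℝ] ℝ :=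
  (exists_real hp h y).choose

lemma hat_hom (hp : 1 ≤ p) (h : IsFree p E F δ) (y : E →L[ℝ] ℝ) : IsLatHom (hat hp h y) :=
  (exists_real hp h y).choose_spec.1

lemma hat_δ (hp : 1 ≤ p) (h : IsFree p E F δ) (y : E →L[ℝ] ℝ) (x : E) :
    hat hp h y (δ x) = y x := (exists_real hp h y).choose_spec.2 x

lemma eq_hat (hp : 1 ≤ p) (h : IsFree p E F δ) {φ : F →L[ℝ] ℝ} (hφ : IsLatHom φ)
    (y : E →L[ℝ] ℝ) (he : ∀ x, φ (δ x) = y x) : φ = hat hp h y :=
  unique_real hp h hφ (hat_hom hp h y) fun x => by rw [he, hat_δ]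

lemma hat_smul (hp : 1 ≤ p) (h : IsFree p E F δ) (y : E →L[ℝ] ℝ) {c : ℝ} (hc : 0 < c) (f : F) :
    hat hp h (c • y) f = c * hat hp h y f := by
  have h1 : c • hat hp h y = hat hp h (c • y) := by
    apply eq_hat
    · intro a b
      constructor
      · change c * hat hp h y (a ⊔ b) = (c * hat hp h y a) ⊔ (c * hat hp h y b)
        rw [(hat_hom hp h y a b).1]
        exact mul_max_of_nonneg _ _ hc.le
      · change c * hat hp h y (a ⊓ b) = (c * hat hp h y a) ⊓ (c * hat hp h y b)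
        rw [(hat_hom hp h y a b).2]
        exact mul_min_of_nonneg _ _ hc.le
    · intro x
      change c * hat hp h y (δ x) = c * y x
      rw [hat_δ]
  rw [← h1]
  rfl

lemma hom_abs {φ : F →L[ℝ] ℝ} (hφ : IsLatHom φ) (f : F) : φ |f| = |φ f| := by
  have h1 : |f| = f ⊔ -f := rfl
  rw [h1, (hφ f (-f)).1, map_neg]
  rfl

/-- the ball of radius `R` of the dual space, with the topology of pointwise convergence -/
def Ball (E : Type u) [NormedAddCommGroup E] [NormedSpace ℝ E] (R : ℝ) : Type u :=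
  {y : E → ℝ // ∃ Y : E →L[ℝ] ℝ, ‖Y‖ ≤ R ∧ ∀ x, Y x = y x}

instance (R : ℝ) : TopologicalSpace (Ball E R) := instTopologicalSpaceSubtype

lemma ball_bound {R : ℝ} (y : Ball E R) (x : E) : ‖y.1 x‖ ≤ R * ‖x‖ := by
  obtain ⟨Y, hY, hYy⟩ := y.2
  rw [← hYy]
  exact (Y.le_opNorm x).trans (mul_le_mul_of_nonneg_right hY (norm_nonneg _))

/-- the canonical map into the continuous functions on the ball -/
noncomputable def TB (E : Type u) [NormedAddCommGroup E] [NormedSpace ℝ E] (R : ℝ) (hR : 0 ≤ R) :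
    E →L[ℝ] (Ball E R →ᵇ ℝ) :=
  LinearMap.mkContinuous
    { toFun := fun x => BoundedContinuousFunction.ofNormedAddCommGroup (fun y : Ball E R => y.1 x)
        ((continuous_apply x).comp continuous_subtype_val) (R * ‖x‖) (fun y => ball_bound y x)
      map_add' := fun a b => by
        ext y
        obtain ⟨Y, hY, hYy⟩ := y.2
        change y.1 (a + b) = y.1 a + y.1 b
        rw [← hYy, ← hYy, ← hYy, map_add]
      map_smul' := fun c a => by
        ext y
        obtain ⟨Y, hY, hYy⟩ := y.2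
        change y.1 (c • a) = c * y.1 a
        rw [← hYy, ← hYy, map_smul, smul_eq_mul] } R fun x =>
    BoundedContinuousFunction.norm_ofNormedAddCommGroup_le _ (by positivity)
      (fun y => ball_bound y x)

lemma TB_apply (R : ℝ) (hR : 0 ≤ R) (x : E) (y : Ball E R) : TB E R hR x y = y.1 x := rfl

/-- weak* continuity on bounded sets -/
lemma weak_cont (hp : 1 ≤ p) (h : IsFree p E F δ) (g : F) (x0 : E →L[ℝ] ℝ) (hx0 : ‖x0‖ ≤ 1)
    (t : ℝ) (ht : 0 < t) (ε : ℝ) (hε : 0 < ε) :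
    ∃ s : Finset E, ∀ k : E →L[ℝ] ℝ, ‖k‖ ≤ 1 → (∀ x ∈ s, k x = 0) →
      hat hp h x0 g - ε ≤ hat hp h (x0 + t • k) g := by
  have hR : (0 : ℝ) ≤ 1 + t := by positivity
  obtain ⟨S, hS, hSδ, -, -⟩ := h.lift (Ball E (1 + t) →ᵇ ℝ) (bcf_pconvex hp _) (TB E (1 + t) hR)
  have hSy : ∀ (Y : E →L[ℝ] ℝ) (y : Ball E (1 + t)), (∀ x, Y x = y.1 x) →
      S g y = hat hp h Y g := by
    intro Y y hy
    have h1 := eq_hat hp h (eval_comp_hom hS y) Y fun x => by
      change S (δ x) y = Y x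
      rw [hSδ, hy]
      rfl
    rw [← h1]
    rfl
  let y0 : Ball E (1 + t) := ⟨x0, x0, hx0.trans (by linarith), fun x => rfl⟩
  have hopen : IsOpen {y : Ball E (1 + t) | hat hp h x0 g - ε < S g y} :=
    isOpen_lt continuous_const (S g).continuous
  obtain ⟨U, hU, hUeq⟩ := isOpen_induced_iff.1 hopen
  have hmemU : ∀ y : Ball E (1 + t), y.1 ∈ U ↔ hat hp h x0 g - ε < S g y := fun y =>
    Set.ext_iff.1 hUeq y
  have hy0 : y0.1 ∈ U := by
    rw [hmemU, hSy x0 y0 fun x => rfl]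
    linarith
  rw [isOpen_pi_iff] at hU
  obtain ⟨I, u, hu, hsub⟩ := hU y0.1 hy0
  refine ⟨I, fun k hk hk0 => ?_⟩
  let y : Ball E (1 + t) := ⟨fun x => (x0 + t • k) x, x0 + t • k, by
    refine (norm_add_le _ _).trans (add_le_add hx0 ?_)
    rw [norm_smul, Real.norm_eq_abs, abs_of_pos ht]
    exact mul_le_of_le_one_right ht.le hk, fun x => rfl⟩
  have hyU : y.1 ∈ U := by
    apply hsub
    intro x hx
    have h2 : y.1 x = y0.1 x := by
      change x0 x + t * k x = x0 x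
      rw [hk0 x hx, mul_zero, add_zero]
    rw [h2]
    exact (hu x hx).2
  have h4 : hat hp h x0 g - ε < S g y := (hmemU y).1 hyU
  rw [hSy (x0 + t • k) y fun x => rfl] at h4
  exact h4.le

/-- a finite index type in any universe -/
def Idx (n : ℕ) : Type u := ULift.{u} (Fin n)

instance (n : ℕ) : Fintype (Idx.{u} n) := inferInstanceAs (Fintype (ULift.{u} (Fin n)))

instance (n : ℕ) : MeasurableSpace (Idx.{u} n) := ⊤

instance (n : ℕ) : DiscreteMeasurableSpace (Idx.{u} n) := ⟨fun _ => trivial⟩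

lemma sum_idx (L : List (E →L[ℝ] ℝ)) (f : (E →L[ℝ] ℝ) → ℝ) :
    ∑ i : Idx.{u} L.length, f (L.get i.down) = (L.map f).sum := by
  rw [← Fin.sum_univ_fun_getElem]
  exact Fintype.sum_equiv Equiv.ulift _ _ fun i => rfl

open Q96.LpFin in
/-- the summing property -/
lemma summing (hp : 1 ≤ p) (h : IsFree p E F δ) (g : F) (hg : ‖g‖ ≤ 1) (hg0 : 0 ≤ g) :
    Q96.FblCore.Summing (E := E) p fun y => hat hp h y g := by
  intro L s hs
  have hp0 : 0 < p := by linarith
  have : Fact (1 ≤ ENNReal.ofReal p) := ⟨by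
    rw [← ENNReal.ofReal_one]
    exact ENNReal.ofReal_le_ofReal hp⟩
  have hs0 : 0 ≤ s := by
    refine le_trans ?_ (hs 0 (by simp))
    apply List.sum_nonneg
    intro r hr
    rw [List.mem_map] at hr
    obtain ⟨y, -, rfl⟩ := hr
    exact Real.rpow_nonneg (abs_nonneg _) _
  let T0 : E →ₗ[ℝ] LI (Idx.{u} L.length) p :=
    { toFun := fun x => mk p fun i => L.get i.down x
      map_add' := fun a b => by
        apply ext'
        intro i
        rw [Q96.LpFin.add_apply, mk_apply, mk_apply, mk_apply, map_add]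
      map_smul' := fun c a => by
        apply ext'
        intro i
        rw [RingHom.id_apply, Q96.LpFin.smul_apply, mk_apply, mk_apply, map_smul, smul_eq_mul] }
  have hT0 : ∀ x i, (T0 x : LI (Idx.{u} L.length) p) i = L.get i.down x := fun x i =>
    mk_apply _ i
  have hnorm : ∀ x, ‖T0 x‖ ^ p = Q96.FblCore.PL p L x := by
    intro x
    rw [norm_rpow hp]
    simp only [hT0]
    exact sum_idx L fun y => |y x| ^ p
  have hbound : ∀ x, ‖T0 x‖ ≤ s ^ (1 / p) * ‖x‖ := by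
    intro x
    by_cases hx : ‖x‖ = 0
    · have : x = 0 := norm_eq_zero.1 hx
      subst this
      rw [map_zero]
      simp
    · have hpos : 0 < ‖x‖ := lt_of_le_of_ne (norm_nonneg _) (Ne.symm hx)
      have h1 := hs (‖x‖⁻¹ • x) (by
        rw [norm_smul, norm_inv, norm_norm, inv_mul_cancel₀ hx])
      rw [← hnorm, map_smul, norm_smul, norm_inv, norm_norm] at h1
      have h2 : ‖x‖⁻¹ * ‖T0 x‖ ≤ s ^ (1 / p) := by
        have h3 : 0 ≤ ‖x‖⁻¹ * ‖T0 x‖ := by positivity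
        calc ‖x‖⁻¹ * ‖T0 x‖ = ((‖x‖⁻¹ * ‖T0 x‖) ^ p) ^ (1 / p) := by
              rw [← Real.rpow_mul h3, mul_one_div_cancel hp0.ne', Real.rpow_one]
          _ ≤ s ^ (1 / p) := Real.rpow_le_rpow (Real.rpow_nonneg h3 _) h1 (by positivity)
      rw [inv_mul_le_iff₀ hpos] at h2
      linarith
  let T : E →L[ℝ] LI (Idx.{u} L.length) p := T0.mkContinuous _ hbound
  have hTn : ‖T‖ ≤ s ^ (1 / p) := LinearMap.mkContinuous_norm_le _ (by positivity) _
  obtain ⟨S, hS, hSδ, hn, -⟩ := h.lift (LI (Idx.{u} L.length) p) (lp_pconvex hp _) T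
  have hSg : ∀ i : Idx.{u} L.length, S g i = hat hp h (L.get i.down) g := by
    intro i
    let φ0 : F →ₗ[ℝ] ℝ :=
      { toFun := fun f => S f i
        map_add' := fun a b => by rw [map_add, Q96.LpFin.add_apply]
        map_smul' := fun c a => by
          rw [map_smul, Q96.LpFin.smul_apply, RingHom.id_apply, smul_eq_mul] }
    have hb : ∀ f, ‖φ0 f‖ ≤ ‖S‖ * ‖f‖ := by
      intro f
      refine le_trans ?_ (S.le_opNorm f)
      have h1 : |S f i| ^ p ≤ ‖S f‖ ^ p := by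
        rw [norm_rpow hp]
        exact Finset.single_le_sum (f := fun i => |S f i| ^ p)
          (fun i _ => Real.rpow_nonneg (abs_nonneg _) _) (Finset.mem_univ i)
      exact (Real.rpow_le_rpow_iff (abs_nonneg _) (norm_nonneg _) hp0).1 h1
    let φ : F →L[ℝ] ℝ := φ0.mkContinuous _ hb
    have h1 := eq_hat hp h (φ := φ) (fun a b => by
      constructor
      · change S (a ⊔ b) i = S a i ⊔ S b i
        rw [(hS a b).1, sup_apply]
      · change S (a ⊓ b) i = S a i ⊓ S b i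
        rw [(hS a b).2, inf_apply]) (L.get i.down) fun x => by
      change S (δ x) i = _
      rw [hSδ]
      exact hT0 x i
    rw [← h1]
    rfl
  have hSn : ‖S g‖ ≤ s ^ (1 / p) := by
    calc ‖S g‖ ≤ ‖S‖ * ‖g‖ := S.le_opNorm g
      _ ≤ s ^ (1 / p) * 1 := by
          rw [hn]
          exact mul_le_mul hTn hg (norm_nonneg _) (by positivity)
      _ = s ^ (1 / p) := mul_one _
  have hfin : ‖S g‖ ^ p ≤ s := by
    calc ‖S g‖ ^ p ≤ (s ^ (1 / p)) ^ p := Real.rpow_le_rpow (norm_nonneg _) hSn hp0.le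
      _ = s := by rw [← Real.rpow_mul hs0, one_div_mul_cancel hp0.ne', Real.rpow_one]
  refine le_trans (le_of_eq ?_) hfin
  rw [norm_rpow hp]
  simp only [hSg]
  have h1 : ∀ y : E →L[ℝ] ℝ, 0 ≤ hat hp h y g := by
    intro y
    have := hom_abs (hat_hom hp h y) g
    rw [abs_of_nonneg hg0] at this
    rw [this]
    exact abs_nonneg _
  rw [sum_idx L fun y => |hat hp h y g| ^ p]
  unfold Q96.FblCore.PhiL
  congr 1
  apply List.map_congr_left
  intro y _
  rw [abs_of_nonneg (h1 y)]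

end Main

/-- **Answer to Q1: yes.** Let `E` be a Banach space, `p ∈ [1, ∞)` and let `(F, δ)` be the free
`p`-convex Banach lattice over `E`. A functional `x'` on `E` attains its norm if and only if the
lattice homomorphism `φ` on `F` with `φ ∘ δ = x'` attains its norm. -/
theorem result (p : ℝ) (hp : 1 ≤ p) (E F : Type u) [NormedAddCommGroup E] [NormedSpace ℝ E]
    [CompleteSpace E] [NormedAddCommGroup F] [Lattice F] [HasSolidNorm F] [IsOrderedAddMonoid F]
    [NormedSpace ℝ F] (δ : E →L[ℝ] F) (h : IsFree p E F δ) (x' : E →L[ℝ] ℝ) :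
    ∃ φ : F →L[ℝ] ℝ, (IsLatHom φ ∧ ∀ x, φ (δ x) = x' x) ∧
      (∀ φ' : F →L[ℝ] ℝ, (IsLatHom φ' ∧ ∀ x, φ' (δ x) = x' x) → φ' = φ) ∧ ‖φ‖ = ‖x'‖ ∧
      (Attains x' ↔ Attains φ) := by
  refine ⟨hat hp h x', ⟨hat_hom hp h x', hat_δ hp h x'⟩, fun φ' h' => eq_hat hp h h'.1 x' h'.2,
    norm_real hp h (hat_hom hp h x') x' (hat_δ hp h x'), ?_, ?_⟩
  · rintro ⟨x, hx, hxx⟩
    refine ⟨δ x, by rwa [h.isometry], ?_⟩
    rw [hat_δ, hxx, norm_real hp h (hat_hom hp h x') x' (hat_δ hp h x')]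
  · rintro ⟨f, hf, hff⟩
    rw [norm_real hp h (hat_hom hp h x') x' (hat_δ hp h x')] at hff
    rcases (norm_nonneg x').lt_or_eq with hpos | hzero
    · set x0 := ‖x'‖⁻¹ • x' with hx0
      have hn : ‖x0‖ = 1 := by
        rw [hx0, norm_smul, norm_inv, norm_norm, inv_mul_cancel₀ hpos.ne']
      have hnonneg : ∀ y : E →L[ℝ] ℝ, 0 ≤ hat hp h y |f| := fun y => by
        rw [hom_abs (hat_hom hp h y)]
        exact abs_nonneg _
      have h1 : hat hp h x0 |f| = 1 := by
        rw [hx0, hat_smul hp h x' (inv_pos.2 hpos), hom_abs (hat_hom hp h x'), hff,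
          abs_of_pos hpos, inv_mul_cancel₀ hpos.ne']
      have hnf : ‖|f|‖ ≤ 1 := by rwa [norm_abs_eq_norm]
      obtain ⟨x, hx, hxx⟩ := Q96.FblCore.core hp (φ := fun y => hat hp h y |f|) hnonneg
        (fun c hc y => hat_smul hp h y hc _) (summing hp h |f| hnf (abs_nonneg f)) x0 hn h1
        (fun t ht ε hε => by
          obtain ⟨s, hs⟩ := weak_cont hp h |f| x0 hn.le t ht ε hε
          refine ⟨s, fun k hk hks => ?_⟩
          have := hs k hk hks
          rwa [h1] at this)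
      refine ⟨x, hx, ?_⟩
      have h2 : ‖x'‖⁻¹ * x' x = 1 := hxx
      rw [inv_mul_eq_iff_eq_mul₀ hpos.ne', mul_one] at h2
      exact h2
    · refine ⟨0, by simp, ?_⟩
      rw [map_zero]
      exact hzero

end Pool.Agent.Results.MP_43bafb_an.NormAttaining
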